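import Pool.Agent.Helper77.Rep.Win

/-!
The inequality `μ ^ j * (S (m + j) + S m) ≤ S (m + 2 j) + S (m + j)` for the two kinds of bases.
-/

namespace Pool.Agent.Helper77.Rep

theorem lam_odd {j : ℕ} {l : ℕ → ℝ} (l0 : l 0 = 0)
    (lr : ∀ r, 1 ≤ r → r < j → l r = 3 / 2 + (-1) ^ r / 2) (lj : l j = 1)
    (hl : ∀ m, l (m + j + 1) = 2 * l (m + j) + l m) :
    ∀ r, r + 1 ≤ j → l (r + 1 + j) = 5 / 3 * 2 ^ (r + 1) - 3 / 2 - (-1) ^ (r + 1) / 6 := by
  intro r
  induction r with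
  | zero =>
    intro _
    have := hl 0
    rw [zero_add, lj, l0] at this
    rw [show 0 + 1 + j = j + 1 by ring, this]
    norm_num
  | succ r ih =>
    intro h
    have h1 := hl (r + 1)
    rw [ih (by omega), lr (r + 1) (by omega) (by omega)] at h1
    rw [show r + 1 + 1 + j = r + 1 + j + 1 by ring, h1, pow_succ (2 : ℝ) (r + 1),
      pow_succ (-1 : ℝ) (r + 1)]
    ring

theorem kap_odd {j : ℕ} {l : ℕ → ℝ} (lj : l j = 1)
    (hl : ∀ m, l (m + j + 1) = 2 * l (m + j) + l m)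
    (hlam : ∀ r, r + 1 ≤ j → l (r + 1 + j) = 5 / 3 * 2 ^ (r + 1) - 3 / 2 - (-1) ^ (r + 1) / 6) :
    ∀ r, r + 1 ≤ j → l (r + 1 + j + j) =
      2 ^ (r + 1) * (l (j + j) + 5 / 6 * (r + 1 : ℕ) - 19 / 18) + 3 / 2 + (-1) ^ (r + 1) / 18 := by
  intro r
  induction r with
  | zero =>
    intro _
    have := hl j
    rw [show 0 + 1 + j + j = j + j + 1 by ring, this, lj]
    norm_num
    ring
  | succ r ih =>
    intro h
    have h1 := hl (r + 1 + j)
    rw [ih (by omega), hlam r (by omega)] at h1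
    rw [show r + 1 + 1 + j + j = r + 1 + j + j + 1 by ring, h1, pow_succ (2 : ℝ) (r + 1),
      pow_succ (-1 : ℝ) (r + 1)]
    push_cast
    ring

theorem A1_odd {j : ℕ} (hj : 5 ≤ j) (hjo : j % 2 = 1) {μ M : ℝ} (h2 : 2 < μ) (hM : M = μ ^ j)
    (hμ : M * (μ - 2) = 1) {l S : ℕ → ℝ} (l0 : l 0 = 0)
    (lr : ∀ r, 1 ≤ r → r < j → l r = 3 / 2 + (-1) ^ r / 2) (lj : l j = 1)
    (hl : ∀ m, l (m + j + 1) = 2 * l (m + j) + l m) (S0 : ∀ r < j, S r = 0)
    (hS : ∀ m, S (m + j) = l (m + j) + S m) (m : ℕ) :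
    M * (S (m + j) + S m) ≤ S (m + j + j) + S (m + j) := by
  have hlam := lam_odd l0 lr lj hl
  have hkap := kap_odd lj hl hlam
  obtain ⟨f1, f2, f3, f4, f5⟩ := num_facts h2 hM hμ (show 4 ≤ j by omega)
  obtain ⟨f6, f7⟩ := f5 hj
  have hN32 : (32 : ℝ) ≤ 2 ^ j := by
    calc (32 : ℝ) = 2 ^ 5 := by norm_num
      _ ≤ 2 ^ j := pow_le_pow_right₀ (by norm_num) hj
  have hj5 : (5 : ℝ) ≤ j := by exact_mod_cast hj
  set N : ℝ := 2 ^ j with hNdef
  set η : ℝ := (j : ℝ) / 2 - (M - N) with hη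
  have h3j : (1 : ℝ) < 3 ^ j := one_lt_pow₀ (by norm_num) (by omega)
  set C : ℝ := 7 / (6 * (3 ^ j - 1)) with hCdef
  have hC : C * (3 ^ j - 1) = 7 / 6 := by
    rw [hCdef]
    have : (3 : ℝ) ^ j - 1 ≠ 0 := by linarith
    field_simp
  have hC0 : 0 ≤ C := by
    rw [hCdef]
    apply div_nonneg (by norm_num)
    linarith
  have hC1 : C ≤ 1 / 2 := by
    have h3 : (3 : ℝ) ^ 5 ≤ 3 ^ j := pow_le_pow_right₀ (by norm_num) hj
    norm_num at h3
    by_contra hcon
    push Not at hcon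
    have : 1 / 2 * (3 ^ j - 1) < C * (3 ^ j - 1) := mul_lt_mul_of_pos_right hcon (by linarith)
    linarith
  have hjodd : (-1 : ℝ) ^ j = -1 := (Nat.odd_iff.2 hjo).neg_one_pow
  have hjm : (-1 : ℝ) ^ (j - 1) = 1 := (Nat.even_iff.2 (by omega)).neg_one_pow
  -- the periodic solution
  set τ0 : ℕ → ℝ := fun r => if r = 0 then 5 / 12 + C else 3 / 2 + (-1) ^ r / 4 + C * 3 ^ r
    with hτ0
  have hL : l (j + j) = 5 / 3 * N - 4 / 3 := by
    have := hlam (j - 1) (by omega)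
    rw [show j - 1 + 1 = j by omega, hjodd] at this
    rw [this]
    ring
  have hSj : S j = 1 := by
    have := hS 0
    rw [zero_add, lj, S0 0 (by omega)] at this
    linarith
  have h3s : (3 : ℝ) ^ j = 3 ^ (j - 1) * 3 := by
    rw [← pow_succ]
    congr 1
    omega
  apply main_gen (j := j) (c := (M - 1) * (5 / 12 + C)) (τ0 := τ0) (by omega) h2 hM hμ hl hS
  · intro r hr
    simp only [hτ0]
    rw [if_neg (by omega), S0 r (by omega), S0 (r + 1) hr]
    rcases Nat.eq_zero_or_pos r with h | h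
    · subst h
      rw [if_pos rfl, l0]
      norm_num
      ring
    · rw [if_neg (by omega), lr r h (by omega), pow_succ (-1 : ℝ) r, pow_succ (3 : ℝ) r]
      ring
  · simp only [hτ0]
    rw [if_true, if_neg (by omega), lr (j - 1) (by omega) (by omega), hSj,
      S0 (j - 1) (by omega), hjm]
    rw [h3s] at hC
    linear_combination -hC
  · apply mul_nonneg <;> linarith
  · intro r hr
    apply mul_le_mul_of_nonneg_left _ (by linarith)
    simp only [hτ0]
    split_ifs with h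
    · exact le_rfl
    · have h3 : (0 : ℝ) ≤ C * 3 ^ r := by positivity
      rcases neg_one_pow_cases r with ⟨_, h4⟩ | ⟨_, h4⟩ <;> rw [h4] <;> linarith
  · intro r hr
    simp only [hτ0]
    rw [S0 r hr]
    rcases Nat.eq_zero_or_pos r with h | h
    · subst h
      rw [if_pos rfl, zero_add, hL, lj, abs_le]
      have h8 : 0 ≤ (M - 1) * C := mul_nonneg (by linarith) hC0
      constructor <;> nlinarith
    · rw [if_neg (by omega)]
      obtain ⟨r', rfl⟩ : ∃ r', r = r' + 1 := ⟨r - 1, by omega⟩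
      obtain ⟨s, hs⟩ : ∃ s, j = r' + 1 + s := ⟨j - (r' + 1), by omega⟩
      have hs1 : 1 ≤ s := by omega
      rw [hlam r' (by omega), hkap r' (by omega), hL]
      have hjs : (j : ℝ) = ((r' + 1 : ℕ) : ℝ) + s := by rw [hs]; push_cast; ring
      have hN : N = 2 ^ (r' + 1) * 2 ^ s := by rw [hNdef, hs, pow_add]
      have h3 : (3 : ℝ) ^ j = 3 ^ (r' + 1) * 3 ^ s := by rw [hs, pow_add]
      have hX : C * 3 ^ (r' + 1) * 3 ^ s = 7 / 6 + C := by
        rw [h3] at hC
        linear_combination hC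
      set X : ℝ := C * 3 ^ (r' + 1) with hXdef
      have hX0 : 0 ≤ X := by positivity
      have hMN : M - N = j / 2 - η := by rw [hη]; ring
      have key : ∀ e : ℝ, (-1 : ℝ) ^ (r' + 1) = e →
          2 ^ (r' + 1) * (5 / 3 * N - 4 / 3 + 5 / 6 * ((r' + 1 : ℕ) : ℝ) - 19 / 18) + 3 / 2 +
          (-1) ^ (r' + 1) / 18 + 2 * (5 / 3 * 2 ^ (r' + 1) - 3 / 2 - (-1) ^ (r' + 1) / 6) +
          2 * 0 - M * (5 / 3 * 2 ^ (r' + 1) - 3 / 2 - (-1) ^ (r' + 1) / 6 + 2 * 0) -
          (M - 1) * (3 / 2 + (-1) ^ (r' + 1) / 4 + X) =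
          -(2 ^ (r' + 1) * (5 / 6 * (s : ℝ) - 17 / 18)) + 5 / 3 * (η * 2 ^ (r' + 1)) -
            e * ((M - 1) / 12 + 1 / 9) - (M - 1) * X := by
        intro e he
        rw [he]
        linear_combination (-(5 / 3 * (2 : ℝ) ^ (r' + 1))) * hMN -
          5 / 6 * (2 : ℝ) ^ (r' + 1) * hjs
      rcases Nat.lt_or_ge s 2 with h4 | h4
      · obtain rfl : s = 1 := by omega
        have he : (-1 : ℝ) ^ (r' + 1) = 1 := by
          rw [show r' + 1 = j - 1 by omega]; exact hjm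
        have hu : (2 : ℝ) ^ (r' + 1) = N / 2 := by rw [hN]; ring
        rw [key 1 he, hu, Nat.cast_one]
        exact coreP1 f1 f6 (by rw [pow_one] at hX; linarith) hC0 f3 (by linarith) (by linarith) hMN
          hj5 f4 f7 rfl
      · obtain ⟨n, rfl⟩ : ∃ n, s = n + 2 := ⟨s - 2, by omega⟩
        have hv : (4 : ℝ) ≤ 2 ^ (n + 2) := by
          calc (4 : ℝ) = 2 ^ 2 := by norm_num
            _ ≤ 2 ^ (n + 2) := pow_le_pow_right₀ (by norm_num) (by omega)
        have h9 : (9 : ℝ) ≤ 3 ^ (n + 2) := by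
          calc (9 : ℝ) = 3 ^ 2 := by norm_num
            _ ≤ 3 ^ (n + 2) := pow_le_pow_right₀ (by norm_num) (by omega)
        have hXle : X ≤ (7 / 6 + C) / 9 := by nlinarith
        have hs2 : (2 : ℝ) ≤ ((n + 2 : ℕ) : ℝ) := by push_cast; linarith [Nat.cast_nonneg (α := ℝ) n]
        rcases neg_one_pow_cases (r' + 1) with ⟨_, he⟩ | ⟨_, he⟩
        · rw [key 1 he]
          exact coreP2 hN (by positivity) hv hs2 (aux_pow1 n) f1 f6 hX0 hXle hC0 f3 (by linarith)
            (Or.inl rfl) rfl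
        · rw [key (-1) he]
          exact coreP2 hN (by positivity) hv hs2 (aux_pow1 n) f1 f6 hX0 hXle hC0 f3 (by linarith)
            (Or.inr rfl) rfl

theorem lam_even {j : ℕ} {l : ℕ → ℝ}
    (lr : ∀ r, r + 1 < j → l r = 3 / 2 + (-1) ^ r / 2) (lj : l j = 3)
    (hl : ∀ m, l (m + j + 1) = 2 * l (m + j) + l m) :
    ∀ r, r < j → l (r + j) = 14 / 3 * 2 ^ r - 3 / 2 - (-1) ^ r / 6 := by
  intro r
  induction r with
  | zero =>
    intro _
    rw [zero_add, lj]
    norm_num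
  | succ r ih =>
    intro h
    have h1 := hl r
    rw [ih (by omega), lr r (by omega)] at h1
    rw [show r + 1 + j = r + j + 1 by ring, h1, pow_succ (2 : ℝ) r, pow_succ (-1 : ℝ) r]
    ring

theorem kap_even {j : ℕ} {l : ℕ → ℝ}
    (hl : ∀ m, l (m + j + 1) = 2 * l (m + j) + l m)
    (hlam : ∀ r, r < j → l (r + j) = 14 / 3 * 2 ^ r - 3 / 2 - (-1) ^ r / 6) :
    ∀ r, r ≤ j → l (r + j + j) =
      2 ^ r * (l (j + j) + 7 / 3 * (r : ℝ) - 14 / 9) + 3 / 2 + (-1) ^ r / 18 := by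
  intro r
  induction r with
  | zero =>
    intro _
    rw [zero_add]
    norm_num
    ring
  | succ r ih =>
    intro h
    have h1 := hl (r + j)
    rw [ih (by omega), hlam r (by omega)] at h1
    rw [show r + 1 + j + j = r + j + j + 1 by ring, h1, pow_succ (2 : ℝ) r, pow_succ (-1 : ℝ) r]
    push_cast
    ring

theorem A1_even {j : ℕ} (hj : 4 ≤ j) (hje : j % 2 = 0) {μ M : ℝ} (h2 : 2 < μ) (hM : M = μ ^ j)
    (hμ : M * (μ - 2) = 1) {l S : ℕ → ℝ}
    (lr : ∀ r, r + 1 < j → l r = 3 / 2 + (-1) ^ r / 2) (lj1 : l (j - 1) = 0) (lj : l j = 3)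
    (hl : ∀ m, l (m + j + 1) = 2 * l (m + j) + l m) (S0 : ∀ r, r + 1 < j → S r = 0)
    (S1 : S (j - 1) = 1)
    (hS : ∀ m, S (m + j) = l (m + j) + S m) (m : ℕ) :
    M * (S (m + j) + S m) ≤ S (m + j + j) + S (m + j) := by
  have hlam := lam_even lr lj hl
  have hkap := kap_even hl hlam
  obtain ⟨f1, f2, f3, f4, _⟩ := num_facts h2 hM hμ hj
  have hN16 : (16 : ℝ) ≤ 2 ^ j := by
    calc (16 : ℝ) = 2 ^ 4 := by norm_num
      _ ≤ 2 ^ j := pow_le_pow_right₀ (by norm_num) hj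
  have hj4 : (4 : ℝ) ≤ j := by exact_mod_cast hj
  have hj2 : (2 : ℝ) * j ≤ 2 ^ j := by
    have : ∀ n : ℕ, 2 * (n + 4) ≤ 2 ^ (n + 4) := by
      intro n
      induction n with
      | zero => norm_num
      | succ n ih =>
        rw [show n + 1 + 4 = n + 4 + 1 by ring, pow_succ]
        omega
    have h3 := this (j - 4)
    rw [show j - 4 + 4 = j by omega] at h3
    exact_mod_cast h3
  set N : ℝ := 2 ^ j with hNdef
  set η : ℝ := (j : ℝ) / 2 - (M - N) with hη
  have h3j : (1 : ℝ) < 3 ^ j := one_lt_pow₀ (by norm_num) (by omega)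
  set C : ℝ := 4 / (3 ^ j - 1) with hCdef
  have hC : C * (3 ^ j - 1) = 4 := by
    rw [hCdef]
    have : (3 : ℝ) ^ j - 1 ≠ 0 := by linarith
    field_simp
  have hC0 : 0 ≤ C := by
    rw [hCdef]
    apply div_nonneg (by norm_num)
    linarith
  have hC1 : C ≤ 1 := by
    have h3 : (3 : ℝ) ^ 4 ≤ 3 ^ j := pow_le_pow_right₀ (by norm_num) hj
    norm_num at h3
    by_contra hcon
    push Not at hcon
    have : 1 * (3 ^ j - 1) < C * (3 ^ j - 1) := mul_lt_mul_of_pos_right hcon (by linarith)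
    linarith
  have hjev : (-1 : ℝ) ^ j = 1 := (Nat.even_iff.2 hje).neg_one_pow
  have hjm : (-1 : ℝ) ^ (j - 1) = -1 := (Nat.odd_iff.2 (by omega)).neg_one_pow
  have hjm2 : (-1 : ℝ) ^ (j - 2) = 1 := (Nat.even_iff.2 (by omega)).neg_one_pow
  have h3s : (3 : ℝ) ^ j = 3 ^ (j - 1) * 3 := by
    rw [← pow_succ]
    congr 1
    omega
  have h3s2 : (3 : ℝ) ^ j = 3 ^ (j - 2) * 9 := by
    rw [show (9 : ℝ) = 3 ^ 2 by norm_num, ← pow_add]
    congr 1
    omega
  have h2s : N = 2 ^ (j - 1) * 2 := by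
    rw [hNdef, ← pow_succ]
    congr 1
    omega
  -- the periodic solution
  set τ0 : ℕ → ℝ := fun r => if r = j - 1 then 7 / 12 + C / 3 else
    3 / 2 + (-1) ^ r / 4 + C * 3 ^ r with hτ0
  have hL : l (j + j) = 14 / 3 * N - 8 / 3 := by
    have h5 := hlam (j - 1) (by omega)
    have h6 := hl (j - 1)
    rw [h5, lj1, hjm, show j - 1 + j + 1 = j + j by omega] at h6
    rw [h6, h2s]
    ring
  have hSj : S j = 3 := by
    have := hS 0
    rw [zero_add, lj, S0 0 (by omega)] at this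
    linarith
  apply main_gen (j := j) (c := (M - 1) * (7 / 12 + C / 3)) (τ0 := τ0) (by omega) h2 hM hμ hl hS
  · intro r hr
    simp only [hτ0]
    rw [if_neg (show ¬ r = j - 1 by omega), S0 r (by omega), lr r (by omega)]
    rcases Nat.lt_or_ge (r + 2) j with h | h
    · rw [if_neg (by omega), S0 (r + 1) (by omega), pow_succ (-1 : ℝ) r, pow_succ (3 : ℝ) r]
      ring
    · obtain rfl : r = j - 2 := by omega
      rw [if_pos (by omega), show j - 2 + 1 = j - 1 by omega, S1, hjm2]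
      rw [h3s2] at hC
      linear_combination (-(1 / 3 : ℝ)) * hC
  · simp only [hτ0]
    rw [if_neg (by omega), if_true, lj1, hSj, S1]
    norm_num
    ring
  · apply mul_nonneg <;> linarith
  · intro r hr
    apply mul_le_mul_of_nonneg_left _ (by linarith)
    simp only [hτ0]
    split_ifs with h
    · exact le_rfl
    · have h3 : (0 : ℝ) ≤ C * 3 ^ r := by positivity
      rcases neg_one_pow_cases r with ⟨_, h4⟩ | ⟨_, h4⟩ <;> rw [h4] <;> linarith
  · intro r hr
    obtain ⟨s, hs⟩ : ∃ s, j = r + s := ⟨j - r, by omega⟩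
    have hs1 : 1 ≤ s := by omega
    have hjs : (j : ℝ) = (r : ℝ) + s := by rw [hs]; push_cast; ring
    have hN : N = 2 ^ r * 2 ^ s := by rw [hNdef, hs, pow_add]
    have h3 : (3 : ℝ) ^ j = 3 ^ r * 3 ^ s := by rw [hs, pow_add]
    have hX : C * 3 ^ r * 3 ^ s = 4 + C := by
      rw [h3] at hC
      linear_combination hC
    have hMN : M - N = j / 2 - η := by rw [hη]; ring
    rw [hlam r hr, hkap r hr.le, hL]
    rcases Nat.lt_or_ge s 2 with h4 | h4
    · obtain rfl : s = 1 := by omega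
      have hrj : r = j - 1 := by omega
      have hSr : S r = 1 := by rw [hrj]; exact S1
      have he : (-1 : ℝ) ^ r = -1 := by rw [hrj]; exact hjm
      have hu : (2 : ℝ) ^ r = N / 2 := by rw [hN]; ring
      rw [hSr]
      simp only [hτ0]
      rw [if_pos hrj, he, hu]
      rw [Nat.cast_one] at hjs
      apply coreQ1 (X := (4 + C) / 3) f1 f2 rfl hC0 f3 (by linarith) (by linarith)
      linear_combination (-(14 / 3 * (N / 2))) * hMN - 7 / 3 * (N / 2) * hjs
    · have hSr : S r = 0 := S0 r (by omega)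
      rw [hSr]
      simp only [hτ0]
      rw [if_neg (by omega)]
      set X : ℝ := C * 3 ^ r with hXdef
      have hX0 : 0 ≤ X := by positivity
      have key : ∀ e : ℝ, (-1 : ℝ) ^ r = e →
          2 ^ r * (14 / 3 * N - 8 / 3 + 7 / 3 * (r : ℝ) - 14 / 9) + 3 / 2 + (-1) ^ r / 18 +
          2 * (14 / 3 * 2 ^ r - 3 / 2 - (-1) ^ r / 6) + 2 * 0 -
          M * (14 / 3 * 2 ^ r - 3 / 2 - (-1) ^ r / 6 + 2 * 0) -
          (M - 1) * (3 / 2 + (-1) ^ r / 4 + X) =
          -(2 ^ r * (7 / 3 * (s : ℝ) - 46 / 9)) + 14 / 3 * (η * 2 ^ r) -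
            e * ((M - 1) / 12 + 1 / 9) - (M - 1) * X := by
        intro e he
        rw [he]
        linear_combination (-(14 / 3 * (2 : ℝ) ^ r)) * hMN - 7 / 3 * (2 : ℝ) ^ r * hjs
      rcases Nat.lt_or_ge s 3 with h5 | h5
      · obtain rfl : s = 2 := by omega
        have hrj : r = j - 2 := by omega
        have he : (-1 : ℝ) ^ r = 1 := by rw [hrj]; exact hjm2
        have hu : (2 : ℝ) ^ r = N / 4 := by rw [hN]; ring
        rw [key 1 he, hu]
        apply coreQ2 (N := N) (η := η) (X := X) f1 f2 (by norm_num at hX; linarith) hC0 f3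
          (by linarith) (by linarith)
        push_cast
        ring
      · obtain ⟨n, rfl⟩ : ∃ n, s = n + 3 := ⟨s - 3, by omega⟩
        have hv : (8 : ℝ) ≤ 2 ^ (n + 3) := by
          calc (8 : ℝ) = 2 ^ 3 := by norm_num
            _ ≤ 2 ^ (n + 3) := pow_le_pow_right₀ (by norm_num) (by omega)
        have h9 : (27 : ℝ) ≤ 3 ^ (n + 3) := by
          calc (27 : ℝ) = 3 ^ 3 := by norm_num
            _ ≤ 3 ^ (n + 3) := pow_le_pow_right₀ (by norm_num) (by omega)
        have hXle : X ≤ (4 + C) / 27 := by nlinarith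
        have hs2 : (3 : ℝ) ≤ ((n + 3 : ℕ) : ℝ) := by push_cast; linarith [Nat.cast_nonneg (α := ℝ) n]
        rcases neg_one_pow_cases r with ⟨_, he⟩ | ⟨_, he⟩
        · rw [key 1 he]
          exact coreQ3 hN (by positivity) hv hs2 (aux_pow2 n) f1 f2 hX0 hXle hC0 f3 (by linarith)
            (Or.inl rfl) rfl
        · rw [key (-1) he]
          exact coreQ3 hN (by positivity) hv hs2 (aux_pow2 n) f1 f2 hX0 hXle hC0 f3 (by linarith)
            (Or.inr rfl) rfl

end Pool.Agent.Helper77.Rep
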