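import Pool.Agent.Helper77.Rep.AOne
import Pool.Agent.Helper20.Rich.Sharp4

/-!
The sharp constant over power-type bases (even number of letters), and the general passage from
the sequence inequality to the hypotheses on lengths.
-/

open scoped ENNReal

namespace Pool.Agent.Helper77.Rep

open Pool.Agent.Helper20.Rich

variable {α : Type*}

section general

variable {b : Base α} {M ε : ℝ}

theorem S_step (m : ℕ) : (b.S (m + b.j) : ℝ) = b.l (m + b.j) + b.S m := by
  have := Base.S_ge (b := b) (n := m + b.j) (by omega)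
  rw [Nat.add_sub_cancel] at this
  exact_mod_cast this

theorem l_step (m : ℕ) : (b.l (m + b.j + 1) : ℝ) = 2 * b.l (m + b.j) + b.l m := by
  have := b.l_succ (n := m + b.j) (by omega)
  rw [Nat.add_sub_cancel] at this
  exact_mod_cast this

/-- first condition -/
theorem A1_of (hM : 1 < M) (hε : ε * (M - 1) = 1)
    (h : ∀ m, M * ((b.S (m + b.j) : ℝ) + b.S m) ≤ b.S (m + b.j + b.j) + b.S (m + b.j)) :
    ∀ k, b.j ≤ k → (b.l (k + b.j) : ℝ) + 2 * b.S k ≤ (1 + ε) * (b.l (k + b.j) + b.l k) := by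
  intro k hk
  obtain ⟨m, rfl⟩ : ∃ m, k = m + b.j := ⟨k - b.j, by omega⟩
  have h1 := h m
  rw [S_step (m + b.j), S_step m] at h1
  rw [S_step m]
  have hε0 : 0 < ε := by
    by_contra hcon
    push Not at hcon
    have : ε * (M - 1) ≤ 0 := mul_nonpos_of_nonpos_of_nonneg hcon (by linarith)
    linarith
  set A : ℝ := (b.l (m + b.j + b.j) : ℝ)
  set B : ℝ := (b.l (m + b.j) : ℝ)
  set S : ℝ := (b.S m : ℝ)
  have h2 : ε * (M * (B + S + S)) ≤ ε * (A + (B + S) + (B + S)) :=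
    mul_le_mul_of_nonneg_left h1 hε0.le
  have h3 : ε * M = 1 + ε := by linear_combination hε
  have h4 : (1 + ε) * (B + S + S) ≤ ε * (A + (B + S) + (B + S)) := by
    rw [← h3]
    linarith
  linarith

/-- second condition -/
theorem A2_of (hε0 : 0 ≤ ε)
    (h1 : ∀ k, b.j ≤ k → (b.l (k + b.j) : ℝ) + 2 * b.S k ≤ (1 + ε) * (b.l (k + b.j) + b.l k))
    (h2 : ∀ r < b.j, 2 * (b.S r : ℝ) ≤ 2 * ε * b.l (r + b.j) + (1 + ε) * b.l r) :
    ∀ n, b.j ≤ n → 2 * (b.S n : ℝ) ≤ (1 + ε) * b.l (n + 1) := by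
  intro n hn
  obtain ⟨m, rfl⟩ : ∃ m, n = m + b.j := ⟨n - b.j, by omega⟩
  rw [S_step m, l_step m]
  have h0 : (0 : ℝ) ≤ b.l (m + b.j) := by positivity
  rcases Nat.lt_or_ge m b.j with h | h
  · have := h2 m h
    linarith
  · have := h1 m h
    nlinarith

end general

variable {P : PB α} {x0 : α}

theorem mult_eq {r : ℕ} (h : 1 ≤ r) : (mult r : ℝ) = 3 / 2 + (-1) ^ r / 2 := by
  rcases neg_one_pow_cases r with ⟨h1, h2⟩ | ⟨h1, h2⟩
  · rw [mult_even h1 h, h2]; norm_num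
  · rw [mult_odd h1, h2]; norm_num

theorem expHyp_sharpP (hj : 5 ≤ P.j) {μ : ℝ} (h2 : 2 < μ)
    (hμ : μ ^ (P.j + 1) = 2 * μ ^ P.j + 1) :
    P.toBase.ExpHyp x0 (1 / (μ ^ P.j - 1)) := by
  have hM1 : (1 : ℝ) < μ ^ P.j := one_lt_pow₀ (by linarith) (by omega)
  have hμ' : μ ^ P.j * (μ - 2) = 1 := by
    rw [pow_succ] at hμ
    linear_combination hμ
  have hε : 1 / (μ ^ P.j - 1) * (μ ^ P.j - 1) = 1 := by
    rw [one_div, inv_mul_cancel₀ (by linarith)]
  have hε0 : 0 ≤ 1 / (μ ^ P.j - 1) := by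
    apply div_nonneg zero_le_one
    linarith
  have hA := A1_odd hj P.jodd h2 rfl hμ' (l := fun n => (P.toBase.l n : ℝ))
    (S := fun n => (P.toBase.S n : ℝ))
    (by rw [P.l_small (by omega)]; simp [mult])
    (by intro r h1 h3; rw [P.l_small (by omega)]; exact mult_eq h1)
    (by rw [P.l_hub]; norm_num)
    (by intro m; exact l_step (b := P.toBase) m)
    (by intro r hr; rw [P.S_small hr]; norm_num)
    (by intro m; exact S_step (b := P.toBase) m)
  have h1 := A1_of (b := P.toBase) hM1 hε hA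
  apply PB.expHyp hε0
  · intro k hk
    exact h1 k hk
  · intro n hn
    refine A2_of (b := P.toBase) hε0 h1 ?_ n hn
    intro r hr
    rw [P.S_small hr, Nat.cast_zero, mul_zero]
    have e1 : (0 : ℝ) ≤ P.toBase.l (r + P.toBase.j) := by positivity
    have e2 : (0 : ℝ) ≤ P.toBase.l r := by positivity
    apply add_nonneg
    · exact mul_nonneg (mul_nonneg (by norm_num) hε0) e1
    · exact mul_nonneg (by linarith) e2

/-- upper bound for an even number of letters -/
theorem RT_even {s : ℕ} (hs : 3 ≤ s) {μ : ℝ} (h2 : 2 < μ)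
    (hμ : μ ^ (2 * s) = 2 * μ ^ (2 * s - 1) + 1) :
    RT (2 * s) ≤ ENNReal.ofReal (2 + 1 / (μ ^ (2 * s - 1) - 1)) := by
  apply RT_le (PF s (2 * s) (by omega) (Or.inl rfl)).toBase ⟨0, by omega⟩
  · apply expHyp_sharpP
    · change 5 ≤ 2 * s - 1
      omega
    · exact h2
    · change μ ^ (2 * s - 1 + 1) = 2 * μ ^ (2 * s - 1) + 1
      rw [show 2 * s - 1 + 1 = 2 * s by omega]
      exact hμ
  · exact PB.rich
  · exact PF_surj _ _ _

/-- the two forms of the constant -/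
theorem const_eq {d : ℕ} (hd : 2 ≤ d) {μ : ℝ} (h2 : 2 < μ) (hμ : μ ^ d = 2 * μ ^ (d - 1) + 1) :
    1 + 1 / (3 - μ) = 2 + 1 / (μ ^ (d - 1) - 1) := by
  have hM1 : (2 : ℝ) < μ ^ (d - 1) := by
    calc (2 : ℝ) < μ := h2
      _ = μ ^ 1 := (pow_one μ).symm
      _ ≤ μ ^ (d - 1) := pow_le_pow_right₀ (by linarith) (by omega)
  have hμ' : μ ^ (d - 1) * (μ - 2) = 1 := by
    have : μ ^ d = μ ^ (d - 1) * μ := by
      rw [← pow_succ]
      congr 1
      omega
    rw [this] at hμ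
    linear_combination hμ
  have h3 : 3 - μ ≠ 0 := by
    intro h
    have : μ = 3 := by linarith
    rw [this] at hμ' hM1
    norm_num at hμ'
    rw [hμ'] at hM1
    norm_num at hM1
  have h4 : μ ^ (d - 1) - 1 ≠ 0 := by linarith
  field_simp
  linear_combination hμ'

end Pool.Agent.Helper77.Rep
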