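import Pool.Agent.Helper77.Rep.OddExp

/-!
The base for an odd number of letters.
-/

namespace Pool.Agent.Helper77.Rep

open Pool.Agent.Helper20.Rich

variable {α : Type*}

/-- Letters of the odd base: the common letter `z`, the centres `cen σ` of the hubs `z (cen σ) z`,
and small letters `lam σ c`, `1 ≤ c ≤ j - 2`. -/
structure QB (α : Type*) where
  j : ℕ
  z : α
  cen : Bool → α
  lam : Bool → ℕ → α
  hj : 4 ≤ j
  jev : j % 2 = 0
  zc : ∀ σ, cen σ ≠ z
  cc : cen false ≠ cen true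
  lz : ∀ σ c, 1 ≤ c → c + 1 < j → lam σ c ≠ z
  lc : ∀ σ τ c, 1 ≤ c → c + 1 < j → lam σ c ≠ cen τ
  ll : ∀ σ τ c d, 1 ≤ c → c ≤ d → d + 1 < j → lam σ c = lam τ d →
    σ = τ ∧ (d = c ∨ (d = c + 1 ∧ c % 2 = 1))

namespace QB

variable (Q : QB α)

/-- multiplicity of a separator -/
def ml (c : ℕ) : ℕ := if c = 0 then 2 else if c + 1 = Q.j then 0 else if c % 2 = 1 then 1 else 2

/-- letter of a separator -/
def sl (σ : Bool) (c : ℕ) : α := if c = 0 then Q.cen (!σ) else Q.lam σ c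

theorem ml_zero : Q.ml 0 = 2 := by simp [ml]

theorem ml_last : Q.ml (Q.j - 1) = 0 := by
  have := Q.hj
  unfold ml
  rw [if_neg (by omega), if_pos (by omega)]

theorem ml_mid {c : ℕ} (h : c + 1 < Q.j) : Q.ml c = if c % 2 = 1 then 1 else 2 := by
  unfold ml
  rcases Nat.eq_zero_or_pos c with h0 | h0
  · subst h0; simp
  · rw [if_neg (by omega), if_neg (by omega)]

theorem ml_pos {c : ℕ} (h : c + 1 < Q.j) : 1 ≤ Q.ml c := by
  rw [Q.ml_mid h]; split_ifs <;> omega

theorem ml_le (c : ℕ) : Q.ml c ≤ 2 := by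
  unfold ml; split_ifs <;> omega

theorem cen_ne (σ : Bool) : Q.cen σ ≠ Q.cen (!σ) := by
  cases σ
  · exact Q.cc
  · exact fun h => Q.cc h.symm

theorem sl_z {σ : Bool} {c : ℕ} (h : c + 1 < Q.j) : Q.sl σ c ≠ Q.z := by
  unfold sl
  split_ifs with h0
  · exact Q.zc _
  · exact Q.lz σ c (by omega) h

theorem sl_cen {σ τ : Bool} {c : ℕ} (h : c + 1 < Q.j) (he : Q.sl σ c = Q.cen τ) :
    c = 0 ∧ τ = !σ := by
  unfold sl at he
  split_ifs at he with h0
  · refine ⟨h0, ?_⟩
    by_contra hne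
    have : τ = σ := by cases σ <;> cases τ <;> simp at hne ⊢
    subst this
    exact Q.cen_ne τ he.symm
  · exact absurd he (Q.lc σ τ c (by omega) h)

theorem sl_inj {σ τ : Bool} {c d : ℕ} (hcd : c ≤ d) (hd : d + 1 < Q.j)
    (he : Q.sl σ c = Q.sl τ d) : σ = τ ∧ (d = c ∨ (d = c + 1 ∧ c % 2 = 1)) := by
  rcases Nat.eq_zero_or_pos c with h0 | h0
  · subst h0
    have h1 : Q.sl τ d = Q.cen (!σ) := by rw [← he]; simp [sl]
    obtain ⟨h2, h3⟩ := Q.sl_cen hd h1
    subst h2
    refine ⟨?_, Or.inl rfl⟩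
    cases σ <;> cases τ <;> simp at h3 ⊢
  · unfold sl at he
    rw [if_neg (by omega), if_neg (by omega)] at he
    exact Q.ll σ τ c d h0 hcd hd he

/-- base words -/
def wd (σ : Bool) (c : ℕ) : List α :=
  if c = Q.j then [Q.z, Q.cen σ, Q.z] else List.replicate (Q.ml c) (Q.sl σ c)

theorem wd_hub (σ : Bool) : Q.wd σ Q.j = [Q.z, Q.cen σ, Q.z] := by simp [wd]

theorem wd_small (σ : Bool) {c : ℕ} (h : c < Q.j) :
    Q.wd σ c = List.replicate (Q.ml c) (Q.sl σ c) := by
  unfold wd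
  rw [if_neg (by omega)]

theorem getElem?_rep {m t : ℕ} {a : α} (h : t < m) : (List.replicate m a)[t]? = some a := by
  rw [List.getElem?_replicate_of_lt h]

/-- the base of towers -/
def toBase : Base α where
  j := Q.j
  w := Q.wd
  e c := if c + 1 = Q.j then 1 else 0
  hj := by have := Q.hj; omega
  pal σ n h := by
    unfold wd
    split_ifs <;> simp
  len n h := by
    unfold wd
    split_ifs <;> simp
  hub σ := by rw [wd_hub]; simp
  bm σ r hr := by
    have hj := Q.hj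
    rw [wd_hub, wd_hub, wd_small Q σ hr]
    rcases Nat.lt_or_ge (r + 1) Q.j with h | h
    · rw [if_neg (by omega)]
      refine ⟨0, le_rfl, Q.z, Q.sl σ r, by simp, ?_, fun h' => Q.sl_z h h'.symm⟩
      rw [List.getElem?_append_left (by simp; exact Q.ml_pos h), getElem?_rep (Q.ml_pos h)]
    · obtain rfl : r = Q.j - 1 := by omega
      rw [if_pos (by omega), Q.ml_last]
      exact ⟨1, le_rfl, Q.cen σ, Q.cen (!σ), by simp, by simp, Q.cen_ne σ⟩
  sm σ n m hnm hmj := by
    have hn : n + 1 < Q.j := by omega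
    have hnp := Q.ml_pos hn
    rw [wd_small Q σ (by omega : n < Q.j), wd_small Q σ hmj, wd_hub]
    rcases Nat.lt_or_ge (m + 1) Q.j with h | h
    · have hmp := Q.ml_pos h
      by_cases hne : Q.sl σ n = Q.sl σ m
      · obtain ⟨_, h2⟩ := Q.sl_inj hnm.le h hne
        have h3 : m = n + 1 ∧ n % 2 = 1 := by omega
        rw [if_pos ⟨h3.2, h3.1⟩]
        refine ⟨1, le_rfl, Q.z, Q.sl σ m, ?_, ?_, fun h' => Q.sl_z h h'.symm⟩
        · rw [Q.ml_mid hn, if_pos h3.2]; simp
        · rw [Q.ml_mid h, if_neg (by omega)]; simp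
      · refine ⟨0, by omega, Q.sl σ n, Q.sl σ m, ?_, ?_, hne⟩
        · rw [List.getElem?_append_left (by simp; exact hnp), getElem?_rep hnp]
        · rw [List.getElem?_append_left (by simp; exact hmp), getElem?_rep hmp]
    · obtain rfl : m = Q.j - 1 := by omega
      rw [Q.ml_last]
      refine ⟨0, by omega, Q.sl σ n, Q.z, ?_, by simp, Q.sl_z hn⟩
      rw [List.getElem?_append_left (by simp; exact hnp), getElem?_rep hnp]

@[simp] theorem toBase_j : Q.toBase.j = Q.j := rfl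

theorem W_hub (σ : Bool) : Q.toBase.W σ Q.j = [Q.z, Q.cen σ, Q.z] := by
  rw [Q.toBase.W_le (n := Q.j) le_rfl]
  exact Q.wd_hub σ

theorem W_small (σ : Bool) {c : ℕ} (h : c < Q.j) :
    Q.toBase.W σ c = List.replicate (Q.ml c) (Q.sl σ c) := by
  rw [Q.toBase.W_le (n := c) h.le]
  exact Q.wd_small σ h

theorem l_small {c : ℕ} (h : c < Q.j) : Q.toBase.l c = Q.ml c := by
  rw [Base.l, Q.W_small false h]; simp

theorem l_hub : Q.toBase.l Q.j = 3 := by
  rw [Base.l, Q.W_hub]; rfl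

theorem oddLen : OddLen Q.toBase where
  j4 := Q.hj
  jev := Q.jev
  l1 r hr := by
    rw [toBase_j] at hr
    rw [Q.l_small (by omega), Q.ml_mid hr]
  l2 := by
    have := Q.hj
    rw [toBase_j, Q.l_small (by omega), Q.ml_last]
  l3 := Q.l_hub
  e1 r hr := by
    rw [toBase_j] at hr
    change (if r + 1 = Q.j then 1 else 0) = 0
    rw [if_neg (by omega)]
  e2 := by
    have := Q.hj
    change (if Q.j - 1 + 1 = Q.j then 1 else 0) = 1
    rw [if_pos (by omega)]

/-- every position lies in a block of level `0`. -/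
theorem block_of (i : ℕ) : ∃ s, Q.toBase.pos 0 s ≤ i ∧ i < Q.toBase.pos 0 (s + 1) := by
  by_contra hcon
  push Not at hcon
  have : ∀ s, Q.toBase.pos 0 s ≤ i := by
    intro s
    induction s with
    | zero => simp
    | succ s ih => exact hcon s ih
  have h1 := this (2 * (i + 1))
  have h2 := Base.pos_ge (b := Q.toBase) 0 (i + 1)
  omega

variable {Q} {x0 : α}

/-- the letters of a hub block -/
theorem hub_letters {s : ℕ} {σ : Bool} (h : DD Q.j s = (σ, Q.j)) :
    Q.toBase.pos 0 (s + 1) = Q.toBase.pos 0 s + 3 ∧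
    Q.toBase.u x0 (Q.toBase.pos 0 s) = Q.z ∧ Q.toBase.u x0 (Q.toBase.pos 0 s + 1) = Q.cen σ ∧
    Q.toBase.u x0 (Q.toBase.pos 0 s + 2) = Q.z := by
  have h1 := Base.pos_idx (b := Q.toBase) (k := 0) h
  rw [zero_add, Q.l_hub] at h1
  have h2 := Base.pos_block x0 (b := Q.toBase) 0 s
  rw [toBase_j, h] at h2
  simp only [zero_add] at h2
  rw [Q.W_hub] at h2
  refine ⟨h1, ?_, ?_, ?_⟩
  · have := h2.get (t := 0) (a := Q.z) (by simp)
    simpa using this
  · exact h2.get (t := 1) (a := Q.cen σ) (by simp)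
  · exact h2.get (t := 2) (a := Q.z) (by simp)

/-- the letters of a separator block -/
theorem sep_letters {s c : ℕ} {σ : Bool} (hc : c < Q.j) (h : DD Q.j s = (σ, c)) :
    Q.toBase.pos 0 (s + 1) = Q.toBase.pos 0 s + Q.ml c ∧
    ∀ t < Q.ml c, Q.toBase.u x0 (Q.toBase.pos 0 s + t) = Q.sl σ c := by
  have h1 := Base.pos_idx (b := Q.toBase) (k := 0) h
  rw [zero_add, Q.l_small hc] at h1
  have h2 := Base.pos_block x0 (b := Q.toBase) 0 s
  rw [toBase_j, h] at h2
  simp only [zero_add] at h2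
  rw [Q.W_small σ hc] at h2
  exact ⟨h1, fun t ht => h2.get (t := t) (a := Q.sl σ c) (getElem?_rep ht)⟩

/-- where the letters are: position `i` is in a hub block (with its offset) or in a nonempty
separator. -/
theorem letter_cases (i : ℕ) :
    (∃ s σ, DD Q.j s = (σ, Q.j) ∧ ((i = Q.toBase.pos 0 s ∧ Q.toBase.u x0 i = Q.z) ∨
      (i = Q.toBase.pos 0 s + 1 ∧ Q.toBase.u x0 i = Q.cen σ) ∨
      (i = Q.toBase.pos 0 s + 2 ∧ Q.toBase.u x0 i = Q.z))) ∨
    (∃ s σ c, DD Q.j s = (σ, c) ∧ c + 1 < Q.j ∧ Q.toBase.pos 0 s ≤ i ∧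
      i < Q.toBase.pos 0 s + Q.ml c ∧ Q.toBase.u x0 i = Q.sl σ c) := by
  obtain ⟨s, h1, h2⟩ := Q.block_of i
  have hle := DD_le Q.j s
  rcases Nat.lt_or_ge (DD Q.j s).2 Q.j with h | h
  · right
    have h3 := sep_letters (x0 := x0) (s := s) (σ := (DD Q.j s).1) h rfl
    rw [h3.1] at h2
    refine ⟨s, (DD Q.j s).1, (DD Q.j s).2, rfl, ?_, h1, h2, ?_⟩
    · by_contra hcon
      have : (DD Q.j s).2 = Q.j - 1 := by omega
      rw [this, Q.ml_last] at h2
      omega
    · have := h3.2 (i - Q.toBase.pos 0 s) (by omega)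
      rwa [show Q.toBase.pos 0 s + (i - Q.toBase.pos 0 s) = i by omega] at this
  · left
    have hs : DD Q.j s = ((DD Q.j s).1, Q.j) := by
      ext
      · rfl
      · simp; omega
    obtain ⟨g1, g2, g3, g4⟩ := hub_letters (x0 := x0) hs
    refine ⟨s, (DD Q.j s).1, hs, ?_⟩
    have h4 : i = Q.toBase.pos 0 s ∨ i = Q.toBase.pos 0 s + 1 ∨ i = Q.toBase.pos 0 s + 2 := by
      omega
    rcases h4 with h4 | h4 | h4
    · left; exact ⟨h4, by rw [h4]; exact g2⟩
    · right; left; exact ⟨h4, by rw [h4]; exact g3⟩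
    · right; right; exact ⟨h4, by rw [h4]; exact g4⟩

theorem natBase : Q.toBase.NatBase x0 := by
  intro σ i hocc
  change Occ _ i (Q.wd σ Q.j) at hocc
  rw [Q.wd_hub] at hocc
  have h0 := hocc.get (t := 0) (a := Q.z) (by simp)
  have h1 := hocc.get (t := 1) (a := Q.cen σ) (by simp)
  have h2 := hocc.get (t := 2) (a := Q.z) (by simp)
  rw [add_zero] at h0
  rcases letter_cases (Q := Q) (x0 := x0) (i + 1) with ⟨s, τ, e1, e2⟩ | ⟨s, τ, c, e1, e2, e3, e4, e5⟩
  · rcases e2 with ⟨_, e3⟩ | ⟨e2, e3⟩ | ⟨_, e3⟩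
    · exact absurd (h1.symm.trans e3) (Q.zc σ)
    · have : σ = τ := by
        by_contra hne
        have : τ = !σ := by cases σ <;> cases τ <;> simp at hne ⊢
        subst this
        exact Q.cen_ne σ (h1.symm.trans e3)
      subst this
      exact ⟨s, e1, by omega⟩
    · exact absurd (h1.symm.trans e3) (Q.zc σ)
  · exfalso
    obtain ⟨rfl, _⟩ := Q.sl_cen e2 (e5.symm.trans h1)
    have h3 := sep_letters (x0 := x0) (by omega) e1
    rw [Q.ml_zero] at e4 h3
    have h4 : i + 1 = Q.toBase.pos 0 s ∨ i + 1 = Q.toBase.pos 0 s + 1 := by omega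
    rcases h4 with h4 | h4
    · have := h3.2 1 (by omega)
      rw [show Q.toBase.pos 0 s + 1 = i + 2 by omega, h2] at this
      exact Q.sl_z e2 this.symm
    · have := h3.2 0 (by omega)
      rw [show Q.toBase.pos 0 s + 0 = i by omega, h0] at this
      exact Q.sl_z e2 this.symm

end QB

end Pool.Agent.Helper77.Rep
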