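import Pool.Agent.Helper77.Rep.EvenSharp

/-!
The hypotheses on lengths for the base with base lengths `2, 1, 2, 1, .., 2, 0; 3`.
-/

namespace Pool.Agent.Helper77.Rep

open Pool.Agent.Helper20.Rich

variable {α : Type*}

/-- the data of the odd base -/
structure OddLen (b : Base α) : Prop where
  j4 : 4 ≤ b.j
  jev : b.j % 2 = 0
  l1 : ∀ r, r + 1 < b.j → b.l r = if r % 2 = 1 then 1 else 2
  l2 : b.l (b.j - 1) = 0
  l3 : b.l b.j = 3
  e1 : ∀ r, r + 1 < b.j → b.e r = 0
  e2 : b.e (b.j - 1) = 1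

namespace OddLen

variable {b : Base α} {x0 : α}

theorem S_small (h : OddLen b) {r : ℕ} (hr : r + 1 < b.j) : b.S r = 0 := by
  rw [Base.S_lt (by omega), h.e1 r hr]

theorem S_last (h : OddLen b) : b.S (b.j - 1) = 1 := by
  have := h.j4
  rw [Base.S_lt (by omega), h.e2]

theorem l_ge (h : OddLen b) {n : ℕ} (hn : b.j ≤ n) : 3 ≤ b.l n := by
  have := b.l_mono le_rfl hn
  rw [h.l3] at this
  exact this

theorem expHyp (h : OddLen b) (h0 : b.NatBase x0)
    (hn : ∀ i p n, 1 ≤ p → (∀ t < n, b.u x0 (i + t) = b.u x0 (i + p + t)) →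
      (∀ r τ, DD b.j r = (τ, b.j) → i ≤ b.pos 0 r → b.pos 0 (r + 1) ≤ i + n → False) → n ≤ p)
    {μ : ℝ} (h2 : 2 < μ) (hμ : μ ^ (b.j + 1) = 2 * μ ^ b.j + 1) :
    b.ExpHyp x0 (1 / (μ ^ b.j - 1)) := by
  have hj4 := h.j4
  have hjev := h.jev
  have hM1 : (1 : ℝ) < μ ^ b.j := one_lt_pow₀ (by linarith) (by omega)
  have hμ' : μ ^ b.j * (μ - 2) = 1 := by
    rw [pow_succ] at hμ
    linear_combination hμ
  set ε : ℝ := 1 / (μ ^ b.j - 1) with hεdef
  have hε : ε * (μ ^ b.j - 1) = 1 := by
    rw [hεdef, one_div, inv_mul_cancel₀ (by linarith)]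
  have hε0 : 0 ≤ ε := by
    rw [hεdef]
    apply div_nonneg zero_le_one
    linarith
  have hlr : ∀ r, r + 1 < b.j → (b.l r : ℝ) = 3 / 2 + (-1) ^ r / 2 := by
    intro r hr
    rw [h.l1 r hr]
    rcases neg_one_pow_cases r with ⟨e1, e2⟩ | ⟨e1, e2⟩
    · rw [if_neg (by omega), e2]; norm_num
    · rw [if_pos e1, e2]; norm_num
  have hlj : (b.l b.j : ℝ) = 3 := by rw [h.l3]; norm_num
  have hA := A1_even hj4 hjev h2 rfl hμ' (l := fun n => (b.l n : ℝ)) (S := fun n => (b.S n : ℝ))
    hlr (by rw [h.l2]; norm_num) hlj (by intro m; exact l_step (b := b) m)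
    (by intro r hr; rw [h.S_small hr]; norm_num) (by rw [h.S_last]; norm_num)
    (by intro m; exact S_step (b := b) m)
  have h1 := A1_of (b := b) hM1 hε hA
  -- the length number `2 j - 1`
  have hlast : 2 ≤ ε * b.l (b.j - 1 + b.j) := by
    have e1 := lam_even (l := fun n => (b.l n : ℝ)) hlr hlj (by intro m; exact l_step (b := b) m)
      (b.j - 1) (by omega)
    rw [(Nat.odd_iff.2 (by omega : (b.j - 1) % 2 = 1)).neg_one_pow] at e1
    obtain ⟨f1, f2, f3, f4, f5⟩ := num_facts h2 rfl hμ' hj4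
    have h2s : (2 : ℝ) ^ b.j = 2 ^ (b.j - 1) * 2 := by
      rw [← pow_succ]
      congr 1
      omega
    have hjj : (b.j : ℝ) ≤ 2 ^ b.j / 3 + 2 / 3 := by
      have : ∀ n : ℕ, 3 * (n + 4) ≤ 2 ^ (n + 4) + 2 := by
        intro n
        induction n with
        | zero => norm_num
        | succ n ih =>
          rw [show n + 1 + 4 = n + 4 + 1 by ring, pow_succ]
          omega
      have h3 := this (b.j - 4)
      rw [show b.j - 4 + 4 = b.j by omega] at h3
      have h4 : (3 * b.j : ℝ) ≤ 2 ^ b.j + 2 := by exact_mod_cast h3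
      linarith
    have h6 : 2 * (μ ^ b.j - 1) ≤ b.l (b.j - 1 + b.j) := by
      rw [e1]
      linarith
    calc (2 : ℝ) = ε * (2 * (μ ^ b.j - 1)) := by linear_combination (-2) * hε
      _ ≤ _ := mul_le_mul_of_nonneg_left h6 hε0
  have h2' : ∀ r < b.j, 2 * (b.S r : ℝ) ≤ 2 * ε * b.l (r + b.j) + (1 + ε) * b.l r := by
    intro r hr
    have e1 : (0 : ℝ) ≤ b.l (r + b.j) := by positivity
    have e2 : (0 : ℝ) ≤ b.l r := by positivity
    rcases Nat.lt_or_ge (r + 1) b.j with h' | h'
    · rw [h.S_small h', Nat.cast_zero, mul_zero]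
      apply add_nonneg
      · exact mul_nonneg (mul_nonneg (by norm_num) hε0) e1
      · exact mul_nonneg (by linarith) e2
    · obtain rfl : r = b.j - 1 := by omega
      rw [h.S_last, h.l2]
      push_cast
      linarith
  have hA2 := A2_of (b := b) hε0 h1 h2'
  have hL3 : ∀ k, (3 : ℝ) ≤ b.l (k + b.j) := by
    intro k
    exact_mod_cast h.l_ge (n := k + b.j) (by omega)
  have hS1 : ∀ r < b.j, (b.S r : ℝ) ≤ 1 := by
    intro r hr
    rcases Nat.lt_or_ge (r + 1) b.j with h' | h'
    · rw [h.S_small h']; norm_num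
    · obtain rfl : r = b.j - 1 := by omega
      rw [h.S_last]; norm_num
  have hlnn : ∀ n, (0 : ℝ) ≤ b.l n := by intro n; positivity
  -- values of `TT k 0 x`
  have hT : ∀ k x, 1 ≤ x → k + 1 < b.j → b.TT k 0 x = 0 ∨
      (b.TT k 0 x = 1 ∧ x = 1 ∧ k % 2 = 1 ∧ k + 2 < b.j) := by
    intro k x hx hk
    unfold Base.TT
    split_ifs with g1 g2
    · right
      omega
    · left; rfl
    · left
      rw [add_zero, h.S_small hk]
  have hT' : ∀ k x, 1 ≤ x → b.j ≤ k + 1 → b.TT k 0 x = b.S k := by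
    intro k x hx hk
    unfold Base.TT
    rw [if_neg (by omega), add_zero]
  refine ⟨h0, hε0, ?_, ?_, ?_, ?_, ?_, ?_⟩
  · intro k c c' hcc hc'
    have hL := hL3 k
    unfold Base.TT
    split_ifs with g1 g2
    · push_cast
      nlinarith
    · push_cast
      nlinarith
    · rcases Nat.lt_or_ge (k + c) b.j with g | g
      · have := hS1 (k + c) g
        nlinarith
      · have g3 := hA2 (k + c) g
        have g4 : (b.l (k + c + 1) : ℝ) ≤ b.l (k + b.j) := by
          exact_mod_cast b.l_mono (by omega) (by omega)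
        nlinarith
  · intro k
    have hL := hL3 k
    have hl := hlnn k
    rcases Nat.lt_or_ge k b.j with g | g
    · have := hS1 k g
      nlinarith
    · have := h1 k g
      linarith
  · intro k c hc hcj
    rcases Nat.lt_or_ge (k + 1) b.j with g | g
    · have := h.l1 k g
      split_ifs at this <;> omega
    · have := h.l_ge (n := k + c) (by omega)
      omega
  · intro k c hc hcj
    have hL := hL3 k
    have hl := hlnn (k + c)
    rcases Nat.lt_or_ge (k + 1) b.j with g | g
    · rcases hT k c hc g with g1 | ⟨g1, g2, g3, g4⟩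
      · rw [g1]
        push_cast
        nlinarith
      · rw [g1]
        subst g2
        have g5 := h.l1 (k + 1) (by omega)
        rw [if_neg (by omega)] at g5
        rw [g5]
        push_cast
        nlinarith
    · rw [hT' k c hc g]
      rcases Nat.lt_or_ge k b.j with g1 | g1
      · have g2 := hS1 k g1
        have g3 : (3 : ℝ) ≤ b.l (k + c) := by exact_mod_cast h.l_ge (n := k + c) (by omega)
        nlinarith
      · have g2 := h1 k g1
        have g3 : (b.l k : ℝ) ≤ b.l (k + c) := by exact_mod_cast b.l_mono g1 (by omega)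
        nlinarith
  · intro k x c hx hxj hc hcj hne
    have hL := hL3 k
    have hl := hlnn k
    rcases Nat.lt_or_ge (k + 1) b.j with g | g
    · have g0 : (b.TT k 0 x : ℝ) + b.TT k 0 c ≤ b.l k := by
        have : b.TT k 0 x + b.TT k 0 c ≤ b.l k := by
          have g5 := h.l1 k g
          rcases hT k x hx g with g1 | ⟨g1, g2, g3, g4⟩ <;>
          rcases hT k c hc g with g1' | ⟨g1', g2', g3', g4'⟩ <;> split_ifs at g5 <;> omega
        exact_mod_cast this
      nlinarith
    · rw [hT' k x hx g, hT' k c hc g]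
      rcases Nat.lt_or_ge k b.j with g1 | g1
      · obtain rfl : k = b.j - 1 := by omega
        rw [h.S_last, h.l2]
        push_cast
        linarith
      · have g2 := h1 k g1
        linarith
  · intro i p n hp hm hno
    have g1 : n ≤ p := hn i p n hp hm hno
    have g2 : (n : ℝ) ≤ p := by exact_mod_cast g1
    have g3 : (0 : ℝ) ≤ p := by positivity
    nlinarith

end OddLen

end Pool.Agent.Helper77.Rep
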