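import Mathlib

/-!
Sequences with `t (m + j + 1) = 2 t (m + j) + t m + 2 D m`, `D` periodic with period `j`: a
criterion for `μ ^ j * t m ≤ t (m + j)` for all `m`, where `μ ^ (j + 1) = 2 μ ^ j + 1`.
-/

namespace Pool.Agent.Helper77.Rep

open Finset

/-- a weighted sum is bounded by the maximum. -/
theorem wsum_le {q c : ℝ} (hq0 : 0 ≤ q) (hq : q ≤ 1 / 2) (hc : 0 ≤ c) {w : ℕ → ℝ} {n : ℕ}
    (hw : ∀ i < n, |w i| ≤ c) :
    |∑ i ∈ range n, q ^ (i + 1) * w i| ≤ c * (1 - (1 / 2) ^ n) := by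
  induction n with
  | zero => simp
  | succ n ih =>
    rw [Finset.sum_range_succ]
    have h1 := ih (fun i hi => hw i (by omega))
    have h2 := hw n (by omega)
    have h3 : q ^ (n + 1) ≤ (1 / 2) ^ (n + 1) := pow_le_pow_left₀ hq0 hq _
    have h4 : (0 : ℝ) ≤ q ^ (n + 1) := by positivity
    have h5 : |q ^ (n + 1) * w n| ≤ (1 / 2) ^ (n + 1) * c := by
      rw [abs_mul, abs_of_nonneg h4]
      exact mul_le_mul h3 h2 (abs_nonneg _) (by positivity)
    have h6 := abs_add_le (∑ i ∈ range n, q ^ (i + 1) * w i) (q ^ (n + 1) * w n)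
    have h7 : (1 / 2 : ℝ) ^ (n + 1) = (1 / 2) ^ n / 2 := by rw [pow_succ]; ring
    rw [h7] at h5 ⊢
    nlinarith

theorem telescope {q μ : ℝ} (hq : q * μ = 1) {h : ℕ → ℝ} (m n : ℕ) :
    ∑ i ∈ range n, q ^ (i + 1) * (h (m + i + 1) - μ * h (m + i)) = q ^ n * h (m + n) - h m := by
  induction n with
  | zero => simp
  | succ n ih =>
    rw [Finset.sum_range_succ, ih, show m + (n + 1) = m + n + 1 by ring, pow_succ]
    linear_combination (-(q ^ n * h (m + n))) * hq

theorem seq_main {j : ℕ} {μ M c : ℝ} (h2 : 2 < μ) (hM : M = μ ^ j) (hμ : M * (μ - 2) = 1)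
    {t τ D : ℕ → ℝ} (ht : ∀ m, t (m + j + 1) = 2 * t (m + j) + t m + 2 * D m)
    (hτ : ∀ m, τ (m + j) = τ m) (hτ' : ∀ m, τ (m + 1) = 3 * τ m - 2 * D m)
    (h0 : 0 ≤ c) (hc : ∀ m, c ≤ (M - 1) * τ m)
    (hw : ∀ r < j, |t (r + j) - M * t r - (M - 1) * τ r| ≤ c) (m : ℕ) :
    M * t m ≤ t (m + j) := by
  have hMpos : 0 < M := by rw [hM]; positivity
  set h : ℕ → ℝ := fun m => t m + τ m with hh
  have hrec : ∀ m, h (m + j + 1) = 2 * h (m + j) + h m := by
    intro m
    have h1 : τ (m + j + 1) = τ (m + 1) := by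
      rw [show m + j + 1 = (m + 1) + j by ring, hτ]
    simp only [hh]
    rw [ht, h1, hτ', hτ]
    ring
  set w : ℕ → ℝ := fun m => h (m + j) - M * h m with hwdef
  have hw' : ∀ m, w m = t (m + j) - M * t m - (M - 1) * τ m := by
    intro m
    simp only [hwdef, hh]
    rw [hτ]
    ring
  have hG : ∀ m, M * (h (m + j + 1) - μ * h (m + j)) = - w m := by
    intro m
    rw [hrec]
    simp only [hwdef]
    linear_combination (-(h (m + j))) * hμ
  set q : ℝ := 1 / μ with hq
  have hqμ : q * μ = 1 := by rw [hq, one_div, inv_mul_cancel₀ (by linarith)]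
  have hq0 : 0 ≤ q := by rw [hq]; positivity
  have hq2 : q ≤ 1 / 2 := by
    rw [hq]
    exact one_div_le_one_div_of_le (by norm_num) h2.le
  have hMq : M * q ^ j = 1 := by rw [hM, ← mul_pow, mul_comm μ q, hqμ, one_pow]
  have hwrec : ∀ m, w (m + j) = - ∑ i ∈ range j, q ^ (i + 1) * w (m + i) := by
    intro m
    have h1 := telescope hqμ (h := h) (m + j) j
    have h3 : w (m + j) = M * (q ^ j * h (m + j + j) - h (m + j)) := by
      simp only [hwdef]
      linear_combination (-(h (m + j + j))) * hMq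
    rw [h3, ← h1, Finset.mul_sum, ← Finset.sum_neg_distrib]
    apply Finset.sum_congr rfl
    intro i _
    have h4 := hG (m + i)
    rw [show m + i + j + 1 = m + j + i + 1 by ring, show m + i + j = m + j + i by ring] at h4
    linear_combination q ^ (i + 1) * h4
  have hall : ∀ m, |w m| ≤ c := by
    intro m
    induction m using Nat.strong_induction_on with
    | _ m ih =>
    rcases Nat.lt_or_ge m j with h1 | h1
    · rw [hw']
      exact hw m h1
    · obtain ⟨m', rfl⟩ : ∃ m', m = m' + j := ⟨m - j, by omega⟩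
      rw [hwrec, abs_neg]
      rcases Nat.eq_zero_or_pos j with h2 | h2
      · subst h2; simpa using h0
      · have h3 := wsum_le hq0 hq2 h0 (w := fun i => w (m' + i)) (n := j)
          (fun i hi => ih (m' + i) (by omega))
        refine h3.trans ?_
        have h4 : (0 : ℝ) ≤ (1 / 2) ^ j := by positivity
        nlinarith
  have h5 := hall m
  rw [hw', abs_le] at h5
  have h6 := hc m
  linarith [h5.1]

/-- the recursion for sums over residue classes -/
theorem S_rec_gen {j : ℕ} {l S : ℕ → ℝ}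
    (hl : ∀ m, l (m + j + 1) = 2 * l (m + j) + l m) (hS : ∀ m, S (m + j) = l (m + j) + S m)
    (hj : 1 ≤ j) (m : ℕ) :
    S (m + j + 1) = 2 * S (m + j) + S m +
      (l (m % j) + S (m % j + 1) - 3 * S (m % j)) := by
  induction m using Nat.strong_induction_on with
  | _ m ih =>
  have h1 : S (m + j + 1) = l (m + j + 1) + S (m + 1) := by
    rw [show m + j + 1 = m + 1 + j by ring, hS]
  rcases Nat.lt_or_ge m j with h | h
  · rw [Nat.mod_eq_of_lt h, h1, hl, hS]
    ring
  · obtain ⟨m', rfl⟩ : ∃ m', m = m' + j := ⟨m - j, by omega⟩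
    have h2 := ih m' (by omega)
    rw [Nat.add_mod_right, h1, hl, h2, hS (m' + j), hS m']
    ring

theorem main_gen {j : ℕ} (hj : 1 ≤ j) {μ M c : ℝ} (h2 : 2 < μ) (hM : M = μ ^ j)
    (hμ : M * (μ - 2) = 1) {l S τ0 : ℕ → ℝ}
    (hl : ∀ m, l (m + j + 1) = 2 * l (m + j) + l m) (hS : ∀ m, S (m + j) = l (m + j) + S m)
    (hτ1 : ∀ r, r + 1 < j → τ0 (r + 1) = 3 * τ0 r - 2 * (l r + S (r + 1) - 3 * S r))
    (hτ2 : τ0 0 = 3 * τ0 (j - 1) - 2 * (l (j - 1) + S j - 3 * S (j - 1)))
    (h0 : 0 ≤ c) (hc : ∀ r < j, c ≤ (M - 1) * τ0 r)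
    (hw : ∀ r < j, |l (r + j + j) + 2 * l (r + j) + 2 * S r - M * (l (r + j) + 2 * S r) -
      (M - 1) * τ0 r| ≤ c) (m : ℕ) :
    M * (S (m + j) + S m) ≤ S (m + j + j) + S (m + j) := by
  have h := seq_main (j := j) (c := c) h2 hM hμ (t := fun m => S (m + j) + S m)
    (τ := fun m => τ0 (m % j)) (D := fun m => l (m % j) + S (m % j + 1) - 3 * S (m % j))
    (by
      intro m
      have e1 := S_rec_gen hl hS hj m
      have e2 := S_rec_gen hl hS hj (m + j)
      rw [Nat.add_mod_right] at e2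
      rw [show m + j + 1 + j = m + j + j + 1 by ring, e1, e2]
      ring)
    (by intro m; simp only [Nat.add_mod_right])
    (by
      intro m
      have hlt := Nat.mod_lt m (show 0 < j by omega)
      rcases Nat.lt_or_ge (m % j + 1) j with h1 | h1
      · have h3 : (m + 1) % j = m % j + 1 := by
          rw [Nat.add_mod, Nat.mod_eq_of_lt (show 1 < j by omega), Nat.mod_eq_of_lt h1]
        rw [h3]
        exact hτ1 _ h1
      · have h3 : m % j = j - 1 := by omega
        have h4 : (m + 1) % j = 0 := by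
          have h5 := Nat.div_add_mod m j
          rw [h3] at h5
          have h6 : m + 1 = j * (m / j + 1) := by rw [Nat.mul_add]; omega
          rw [h6, Nat.mul_mod_right]
        rw [h4, h3, hτ2, show j - 1 + 1 = j by omega])
    h0 (by intro m; exact hc _ (Nat.mod_lt m (by omega)))
    (by
      intro r hr
      rw [Nat.mod_eq_of_lt hr, hS (r + j), hS r]
      have := hw r hr
      rw [show l (r + j + j) + (l (r + j) + S r) + (l (r + j) + S r) - M * (l (r + j) + S r + S r) -
        (M - 1) * τ0 r = l (r + j + j) + 2 * l (r + j) + 2 * S r - M * (l (r + j) + 2 * S r) -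
        (M - 1) * τ0 r by ring]
      exact this) m
  exact h

/-- second order Bernoulli inequality -/
theorem bern_up {y : ℝ} (h0 : 0 ≤ y) (h1 : y ≤ 1) (n : ℕ) :
    (1 - y) ^ n ≤ 1 - n * y + n * (n - 1) / 2 * y ^ 2 := by
  induction n with
  | zero => simp
  | succ n ih =>
    rw [pow_succ]
    have h2 : (1 - y) ^ n * (1 - y) ≤ (1 - n * y + n * (n - 1) / 2 * y ^ 2) * (1 - y) :=
      mul_le_mul_of_nonneg_right ih (by linarith)
    refine h2.trans ?_
    push_cast
    have h3 : (0 : ℝ) ≤ n * (n - 1) / 2 * y ^ 3 := by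
      rcases Nat.eq_zero_or_pos n with h | h
      · subst h; simp
      · have : (1 : ℝ) ≤ n := by exact_mod_cast h
        have h5 : (0 : ℝ) ≤ (n : ℝ) - 1 := by linarith
        positivity
    nlinarith

/-- `η = j / 2 - (μ ^ j - 2 ^ j)` is small. -/
theorem eta_bounds {j : ℕ} {μ M : ℝ} (h2 : 2 < μ) (hM : M = μ ^ j) (hμ : M * (μ - 2) = 1)
    (hj : 1 ≤ j) :
    (j : ℝ) / 2 ≤ (j / 2 - (M - 2 ^ j)) * (2 * M + 1) ∧
      4 * (j / 2 - (M - 2 ^ j)) * (2 * M + 1) ≤ j * (j + 1) := by
  have hMpos : 0 < M := by rw [hM]; positivity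
  have hK : 0 < 2 * M + 1 := by linarith
  set y : ℝ := 1 / (2 * M + 1) with hy
  have hyK : y * (2 * M + 1) = 1 := by rw [hy, one_div, inv_mul_cancel₀ hK.ne']
  have hy0 : 0 ≤ y := by rw [hy]; positivity
  have hy1 : y ≤ 1 := by
    rw [hy, div_le_one hK]
    linarith
  have hN : (2 : ℝ) ^ j = M * (1 - y) ^ j := by
    rw [hM, ← mul_pow]
    congr 1
    have h3 : M * (μ * (1 - y) - 2) = 0 := by
      have : μ * (1 - y) * (2 * M + 1) = 2 * (2 * M + 1) := by
        have e1 : (1 - y) * (2 * M + 1) = 2 * M := by linear_combination -hyK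
        have e2 : M * μ = 2 * M + 1 := by linear_combination hμ
        linear_combination μ * e1 + 2 * e2
      have h4 : (μ * (1 - y) - 2) * (2 * M + 1) = 0 := by linear_combination this
      rcases mul_eq_zero.1 h4 with h5 | h5
      · rw [h5, mul_zero]
      · exact absurd h5 hK.ne'
    have := (mul_eq_zero.1 h3).resolve_left hMpos.ne'
    linarith
  have hlow : 1 - j * y ≤ (1 - y) ^ j := by
    have := one_add_mul_le_pow (show (-2 : ℝ) ≤ -y by linarith) j
    rw [show 1 + -y = 1 - y by ring] at this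
    linarith
  have hup := bern_up hy0 hy1 j
  have hjr : (1 : ℝ) ≤ j := by exact_mod_cast hj
  have e1 : M - 2 ^ j ≤ M * (j * y) := by
    rw [hN]
    nlinarith
  have e2 : M * (j * y - j * (j - 1) / 2 * y ^ 2) ≤ M - 2 ^ j := by
    rw [hN]
    nlinarith
  constructor
  · have e3 : (M - 2 ^ j) * (2 * M + 1) ≤ M * j := by
      calc (M - 2 ^ j) * (2 * M + 1) ≤ M * (j * y) * (2 * M + 1) :=
            mul_le_mul_of_nonneg_right e1 hK.le
        _ = M * j * (y * (2 * M + 1)) := by ring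
        _ = M * j := by rw [hyK, mul_one]
    linarith
  · have e3 : M * j - M * (j * (j - 1) / 2 * y) ≤ (M - 2 ^ j) * (2 * M + 1) := by
      calc M * j - M * (j * (j - 1) / 2 * y)
          = M * j * (y * (2 * M + 1)) - M * (j * (j - 1) / 2 * y * (y * (2 * M + 1))) := by
            rw [hyK, mul_one, mul_one]
        _ = M * (j * y - j * (j - 1) / 2 * y ^ 2) * (2 * M + 1) := by ring
        _ ≤ _ := mul_le_mul_of_nonneg_right e2 hK.le
    have e4 : M * (j * (j - 1) / 2 * y) ≤ j * (j - 1) / 4 := by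
      have h3 : 2 * M * y ≤ 1 := by
        have : 2 * M * y = 1 - y := by linear_combination hyK
        linarith
      have h4 : (0 : ℝ) ≤ j * (j - 1) := by nlinarith
      nlinarith
    linarith

end Pool.Agent.Helper77.Rep
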