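import Pool.Agent.Helper77.Rep.Seq

/-!
The initial window for the two kinds of bases.
-/

namespace Pool.Agent.Helper77.Rep

theorem neg_one_pow_cases (r : ℕ) : (r % 2 = 0 ∧ (-1 : ℝ) ^ r = 1) ∨ (r % 2 = 1 ∧ (-1 : ℝ) ^ r = -1) := by
  rcases Nat.mod_two_eq_zero_or_one r with h | h
  · exact Or.inl ⟨h, (Nat.even_iff.2 h).neg_one_pow⟩
  · exact Or.inr ⟨h, (Nat.odd_iff.2 h).neg_one_pow⟩

/-- common facts on `M = μ ^ j` -/
theorem num_facts {j : ℕ} {μ M : ℝ} (h2 : 2 < μ) (hM : M = μ ^ j) (hμ : M * (μ - 2) = 1)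
    (hj : 4 ≤ j) :
    0 ≤ (j : ℝ) / 2 - (M - 2 ^ j) ∧ (j : ℝ) / 2 - (M - 2 ^ j) ≤ 5 / 32 ∧ (2 : ℝ) ^ j ≤ M - 1 ∧
      (j : ℝ) / 2 ≤ ((j : ℝ) / 2 - (M - 2 ^ j)) * (2 * M + 1) ∧
      (5 ≤ j → (j : ℝ) / 2 - (M - 2 ^ j) ≤ 1 / 8 ∧ 2 * M + 1 ≤ 5 / 2 * 2 ^ j) := by
  obtain ⟨e1, e2⟩ := eta_bounds h2 hM hμ (by omega)
  have hjr : (4 : ℝ) ≤ j := by exact_mod_cast hj
  have hNM : (2 : ℝ) ^ j ≤ M := by rw [hM]; exact pow_le_pow_left₀ (by norm_num) h2.le _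
  have hN16 : (16 : ℝ) ≤ 2 ^ j := by
    calc (16 : ℝ) = 2 ^ 4 := by norm_num
      _ ≤ 2 ^ j := pow_le_pow_right₀ (by norm_num) hj
  set η : ℝ := (j : ℝ) / 2 - (M - 2 ^ j) with hη
  have hKpos : 0 < 2 * M + 1 := by linarith
  have h0 : 0 ≤ η := by
    by_contra hcon
    push Not at hcon
    have := mul_neg_of_neg_of_pos hcon hKpos
    linarith
  have hn1 : (j : ℝ) * (j + 1) ≤ 5 / 4 * 2 ^ j := by
    have : ∀ n : ℕ, 4 * ((n + 4) * (n + 5)) ≤ 5 * 2 ^ (n + 4) := by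
      intro n
      induction n with
      | zero => norm_num
      | succ n ih =>
        rw [show n + 1 + 4 = n + 4 + 1 by ring, pow_succ]
        nlinarith
    have h3 := this (j - 4)
    rw [show j - 4 + 4 = j by omega, show j - 4 + 5 = j + 1 by omega] at h3
    have h4 : (4 * (j * (j + 1)) : ℝ) ≤ 5 * 2 ^ j := by exact_mod_cast h3
    linarith
  have h1 : η ≤ 5 / 32 := by
    by_contra hcon
    push Not at hcon
    have : 5 / 32 * (2 * M + 1) < η * (2 * M + 1) := mul_lt_mul_of_pos_right hcon hKpos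
    nlinarith
  refine ⟨h0, h1, by linarith, e1, ?_⟩
  intro hj5
  have hjr : (5 : ℝ) ≤ j := by exact_mod_cast hj5
  have hn2 : (j : ℝ) * (j + 1) ≤ 2 ^ j ∧ 2 * ((j : ℝ) + 1) ≤ 2 ^ j := by
    have : ∀ n : ℕ, (n + 5) * (n + 6) ≤ 2 ^ (n + 5) := by
      intro n
      induction n with
      | zero => norm_num
      | succ n ih =>
        rw [show n + 1 + 5 = n + 5 + 1 by ring, pow_succ]
        nlinarith
    have h3 := this (j - 5)
    rw [show j - 5 + 5 = j by omega, show j - 5 + 6 = j + 1 by omega] at h3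
    have h4 : (j * (j + 1) : ℝ) ≤ 2 ^ j := by exact_mod_cast h3
    exact ⟨h4, by nlinarith⟩
  constructor
  · by_contra hcon
    push Not at hcon
    have : 1 / 8 * (2 * M + 1) < η * (2 * M + 1) := mul_lt_mul_of_pos_right hcon hKpos
    nlinarith [hn2.1]
  · have := hn2.2
    linarith

theorem aux_pow1 (n : ℕ) : (5 : ℝ) / 6 * (n + 2 : ℕ) - 17 / 18 ≤ 7 / 36 * 2 ^ (n + 2) := by
  induction n with
  | zero => norm_num
  | succ n ih =>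
    rw [show n + 1 + 2 = n + 2 + 1 by ring, pow_succ]
    push_cast at ih ⊢
    rcases Nat.eq_zero_or_pos n with h | h
    · subst h; norm_num
    · have : (4 : ℝ) ≤ 2 ^ (n + 2) := by
        calc (4 : ℝ) = 2 ^ 2 := by norm_num
          _ ≤ 2 ^ (n + 2) := pow_le_pow_right₀ (by norm_num) (by omega)
      have h8 : (8 : ℝ) ≤ 2 ^ (n + 2) := by
        calc (8 : ℝ) = 2 ^ 3 := by norm_num
          _ ≤ 2 ^ (n + 2) := pow_le_pow_right₀ (by norm_num) (by omega)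
      linarith

theorem aux_pow2 (n : ℕ) : (7 : ℝ) / 3 * (n + 3 : ℕ) - 46 / 9 ≤ 19 / 72 * 2 ^ (n + 3) := by
  induction n with
  | zero => norm_num
  | succ n ih =>
    rw [show n + 1 + 3 = n + 3 + 1 by ring, pow_succ]
    push_cast at ih ⊢
    rcases Nat.eq_zero_or_pos n with h | h
    · subst h; norm_num
    · have h8 : (16 : ℝ) ≤ 2 ^ (n + 3) := by
        calc (16 : ℝ) = 2 ^ 4 := by norm_num
          _ ≤ 2 ^ (n + 3) := pow_le_pow_right₀ (by norm_num) (by omega)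
      linarith

/-- numeric core for odd `j`, `s = j - r ≥ 2` -/
theorem coreP2 {u v N M η X C e s w : ℝ} (hN : N = u * v) (hu : 0 ≤ u) (hv : 4 ≤ v)
    (hs : 2 ≤ s) (hsv : 5 / 6 * s - 17 / 18 ≤ 7 / 36 * v) (hη0 : 0 ≤ η) (hη : η ≤ 1 / 8)
    (hX0 : 0 ≤ X) (hX : X ≤ (7 / 6 + C) / 9) (hC : 0 ≤ C) (hNM : N ≤ M - 1) (hM : 13 ≤ M)
    (he : e = 1 ∨ e = -1)
    (hw : w = -(u * (5 / 6 * s - 17 / 18)) + 5 / 3 * (η * u) - e * ((M - 1) / 12 + 1 / 9) -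
      (M - 1) * X) : |w| ≤ (M - 1) * (5 / 12 + C) := by
  have q1 : u * (5 / 6 * s - 17 / 18) ≤ 7 / 36 * N := by
    rw [hN]
    nlinarith
  have q2 : 0 ≤ u * (5 / 6 * s - 17 / 18) := mul_nonneg hu (by linarith)
  have q3 : 4 * u ≤ N := by rw [hN]; nlinarith
  have q4 : η * u ≤ N / 32 := by nlinarith
  have q5 : 0 ≤ η * u := mul_nonneg hη0 hu
  have q6 : (M - 1) * X ≤ (M - 1) * ((7 / 6 + C) / 9) :=
    mul_le_mul_of_nonneg_left hX (by linarith)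
  have q7 : 0 ≤ (M - 1) * X := mul_nonneg (by linarith) hX0
  have q8 : 0 ≤ (M - 1) * C := mul_nonneg (by linarith) hC
  rw [abs_le, hw]
  constructor
  · rcases he with rfl | rfl <;> nlinarith
  · rcases he with rfl | rfl <;> nlinarith

/-- numeric core for odd `j`, `s = 1` -/
theorem coreP1 {N M η X C jj w : ℝ} (hη0 : 0 ≤ η) (hη : η ≤ 1 / 8)
    (hX : X = (7 / 6 + C) / 3) (hC : 0 ≤ C) (hNM : N ≤ M - 1) (hM : 13 ≤ M) (hN : 0 ≤ N)
    (hδ : M - N = jj / 2 - η) (hj : 5 ≤ jj) (hK : jj / 2 ≤ η * (2 * M + 1))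
    (hK' : 2 * M + 1 ≤ 5 / 2 * N)
    (hw : w = -(N / 2 * (5 / 6 * 1 - 17 / 18)) + 5 / 3 * (η * (N / 2)) -
      1 * ((M - 1) / 12 + 1 / 9) - (M - 1) * X) : |w| ≤ (M - 1) * (5 / 12 + C) := by
  have q1 : jj / 5 ≤ η * N := by
    have : η * (2 * M + 1) ≤ η * (5 / 2 * N) := mul_le_mul_of_nonneg_left hK' hη0
    nlinarith
  have q2 : η * N ≤ N / 8 := by nlinarith
  have q8 : 0 ≤ (M - 1) * C := mul_nonneg (by linarith) hC
  rw [abs_le, hw, hX]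
  constructor <;> nlinarith

/-- numeric core for even `j`, `s ≥ 3` -/
theorem coreQ3 {u v N M η X C e s w : ℝ} (hN : N = u * v) (hu : 0 ≤ u) (hv : 8 ≤ v)
    (hs : 3 ≤ s) (hsv : 7 / 3 * s - 46 / 9 ≤ 19 / 72 * v) (hη0 : 0 ≤ η) (hη : η ≤ 5 / 32)
    (hX0 : 0 ≤ X) (hX : X ≤ (4 + C) / 27) (hC : 0 ≤ C) (hNM : N ≤ M - 1) (hM : 13 ≤ M)
    (he : e = 1 ∨ e = -1)
    (hw : w = -(u * (7 / 3 * s - 46 / 9)) + 14 / 3 * (η * u) - e * ((M - 1) / 12 + 1 / 9) -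
      (M - 1) * X) : |w| ≤ (M - 1) * (7 / 12 + C / 3) := by
  have q1 : u * (7 / 3 * s - 46 / 9) ≤ 19 / 72 * N := by
    rw [hN]
    nlinarith
  have q2 : 0 ≤ u * (7 / 3 * s - 46 / 9) := mul_nonneg hu (by linarith)
  have q3 : 8 * u ≤ N := by rw [hN]; nlinarith
  have q4 : η * u ≤ 5 * N / 256 := by nlinarith
  have q5 : 0 ≤ η * u := mul_nonneg hη0 hu
  have q6 : (M - 1) * X ≤ (M - 1) * ((4 + C) / 27) :=
    mul_le_mul_of_nonneg_left hX (by linarith)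
  have q7 : 0 ≤ (M - 1) * X := mul_nonneg (by linarith) hX0
  have q8 : 0 ≤ (M - 1) * C := mul_nonneg (by linarith) hC
  rw [abs_le, hw]
  constructor
  · rcases he with rfl | rfl <;> nlinarith
  · rcases he with rfl | rfl <;> nlinarith

/-- numeric core for even `j`, `s = 2` -/
theorem coreQ2 {N M η X C w : ℝ} (hη0 : 0 ≤ η) (hη : η ≤ 5 / 32)
    (hX : X = (4 + C) / 9) (hC : 0 ≤ C) (hNM : N ≤ M - 1) (hM : 13 ≤ M) (hN : 1 ≤ N)
    (hw : w = -(N / 4 * (7 / 3 * 2 - 46 / 9)) + 14 / 3 * (η * (N / 4)) -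
      1 * ((M - 1) / 12 + 1 / 9) - (M - 1) * X) : |w| ≤ (M - 1) * (7 / 12 + C / 3) := by
  have q1 : 0 ≤ η * N := mul_nonneg hη0 (by linarith)
  have q2 : η * N ≤ 5 * N / 32 := by nlinarith
  have q8 : 0 ≤ (M - 1) * C := mul_nonneg (by linarith) hC
  rw [abs_le, hw, hX]
  constructor <;> nlinarith

/-- numeric core for even `j`, `s = 1` -/
theorem coreQ1 {N M η X C w : ℝ} (hη0 : 0 ≤ η) (hη : η ≤ 5 / 32)
    (hX : X = (4 + C) / 3) (hC : 0 ≤ C) (hNM : N ≤ M - 1) (hM : 16 ≤ M) (hN : M ≤ 5 / 4 * N)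
    (hw : w = -(N / 2 * (7 / 3 * 1 - 46 / 9)) + 14 / 3 * (η * (N / 2)) -
      (-1) * ((M - 1) / 12 + 1 / 9) - (M - 1) * X) : |w| ≤ (M - 1) * (7 / 12 + C / 3) := by
  have q1 : 0 ≤ η * N := mul_nonneg hη0 (by linarith)
  have q2 : η * N ≤ 5 * N / 32 := by nlinarith
  have q8 : 0 ≤ (M - 1) * C := mul_nonneg (by linarith) hC
  rw [abs_le, hw, hX]
  constructor <;> nlinarith

end Pool.Agent.Helper77.Rep
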